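import Mathlib

/-!
# A Salem number of degree 6 with preperiod length one and a non-reciprocal co-factor
-/

set_option autoImplicit false

namespace Pool.Agent.Results.MP_9c9d6b_nt.NonReciprocal

open Polynomial

/-! ### Definitions -/

/-- the remainders `r_n` of the greedy expansion of `1` in base `β` -/
noncomputable def rem (β : ℝ) : ℕ → ℝ
  | 0 => 1
  | n + 1 => β * rem β n - ⌊β * rem β n⌋

/-- the digits `c_n` (for `n ≥ 1`) of the greedy expansion of `1` in base `β` -/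
noncomputable def digit (β : ℝ) (n : ℕ) : ℤ := ⌊β * rem β (n - 1)⌋

/-- `p ≥ 1` and `c_{n+m} = c_{n+m+p}` for all `n ≥ 1` -/
def PeriodicFrom (c : ℕ → ℤ) (m p : ℕ) : Prop := 1 ≤ p ∧ ∀ n, 1 ≤ n → c (n + m) = c (n + m + p)

/-- `m` is the preperiod length and `p` the period length of the sequence. -/
def IsPreperiodPeriod (c : ℕ → ℤ) (m p : ℕ) : Prop :=
  PeriodicFrom c m p ∧ ∀ m' p', PeriodicFrom c m' p' → m ≤ m' ∧ p ≤ p'

/-- the polynomial `P_k = x^k - c_1 x^(k-1) - ... - c_k` -/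
noncomputable def Pk (c : ℕ → ℤ) (k : ℕ) : ℤ[X] :=
  X ^ k - ∑ i ∈ Finset.range k, C (c (i + 1)) * X ^ (k - 1 - i)

/-- `β` is a Salem number. -/
def IsSalem (β : ℝ) : Prop :=
  1 < β ∧ IsIntegral ℤ β ∧ (∀ α : ℂ, aeval α (minpoly ℤ β) = 0 → α ≠ β → ‖α‖ ≤ 1) ∧
    ∃ α : ℂ, aeval α (minpoly ℤ β) = 0 ∧ ‖α‖ = 1

/-! ### The minimal polynomial -/

/-- the minimal polynomial -/
noncomputable def P : ℤ[X] := X ^ 6 - 10 * X ^ 5 - 6 * X ^ 4 + 3 * X ^ 3 - 6 * X ^ 2 - 10 * X + 1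

lemma P_natDegree : P.natDegree = 6 := by
  unfold P
  compute_degree!

lemma P_monic : P.Monic := by
  unfold P
  monicity!

lemma cyc9 : cyclotomic 9 (ZMod 2) = X ^ 6 + X ^ 3 + 1 := by
  have h := cyclotomic_prime_pow_eq_geom_sum (R := ZMod 2) (p := 3) (n := 1) (by norm_num)
  norm_num [Finset.sum_range_succ] at h
  rw [h]
  ring

lemma irr2 : Irreducible (X ^ 6 + X ^ 3 + 1 : (ZMod 2)[X]) := by
  have : Fact (Nat.Prime 2) := ⟨Nat.prime_two⟩
  rw [← cyc9]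
  refine ZMod.irreducible_of_dvd_cyclotomic_of_natDegree (n := 9) (by norm_num) dvd_rfl ?_
  rw [natDegree_cyclotomic]
  symm
  have h1 : Nat.totient 9 = 6 := by decide
  rw [h1, orderOf_eq_iff (by norm_num)]
  constructor
  · ext
    push_cast
    decide
  · intro m hm h0 h
    have h2 := congrArg Units.val h
    push_cast at h2
    revert h2
    interval_cases m <;> decide

lemma P_irr : Irreducible P := by
  refine P_monic.irreducible_of_irreducible_map (Int.castRingHom (ZMod 2)) P ?_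
  have : P.map (Int.castRingHom (ZMod 2)) = X ^ 6 + X ^ 3 + 1 := by
    unfold P
    simp only [Polynomial.map_add, Polynomial.map_sub, Polynomial.map_mul, Polynomial.map_pow, map_X,
      Polynomial.map_one, Polynomial.map_ofNat]
    have e10 : (10 : (ZMod 2)[X]) = 0 := by
      have : ((10 : ZMod 2) : ZMod 2) = 0 := by decide
      rw [← map_ofNat (C : ZMod 2 →+* (ZMod 2)[X]) 10, this, map_zero]
    have e6 : (6 : (ZMod 2)[X]) = 0 := by
      have : ((6 : ZMod 2) : ZMod 2) = 0 := by decide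
      rw [← map_ofNat (C : ZMod 2 →+* (ZMod 2)[X]) 6, this, map_zero]
    have e3 : (3 : (ZMod 2)[X]) = 1 := by
      have : ((3 : ZMod 2) : ZMod 2) = 1 := by decide
      rw [← map_ofNat (C : ZMod 2 →+* (ZMod 2)[X]) 3, this, map_one]
    rw [e10, e6, e3]
    ring
  rw [this]
  exact irr2

lemma aeval_P {A : Type*} [CommRing A] (a : A) :
    aeval a P = a ^ 6 - 10 * a ^ 5 - 6 * a ^ 4 + 3 * a ^ 3 - 6 * a ^ 2 - 10 * a + 1 := by
  unfold P
  simp [map_ofNat]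

lemma minpoly_eq {β : ℝ} (h : aeval β P = 0) : minpoly ℤ β = P := by
  have hint : IsIntegral ℤ β := ⟨P, P_monic, h⟩
  have h1 : minpoly ℤ β ∣ P := minpoly.isIntegrallyClosed_dvd hint h
  have h2 : ¬ IsUnit (minpoly ℤ β) := minpoly.not_isUnit ℤ β
  have h3 : Associated (minpoly ℤ β) P := (P_irr.dvd_iff.1 h1).resolve_left h2 |>.symm
  exact eq_of_monic_of_associated (minpoly.monic hint) P_monic h3

lemma P_reverse : P.reverse = P := by
  ext n
  rw [coeff_reverse, P_natDegree]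
  by_cases hn : n ≤ 6
  · rw [revAt_le hn]
    unfold P
    interval_cases n <;> simp [coeff_X, coeff_one, coeff_ofNat_mul]
  · rw [revAt_eq_self_of_lt (by omega)]

/-! ### The number -/

/-- lower bound of the number -/
def lo : ℚ := 10547787904986585409 / 1000000000000000000

/-- upper bound of the number -/
def hi : ℚ := 10547787904986585410 / 1000000000000000000

lemma exists_root : ∃ β : ℝ, (lo : ℝ) ≤ β ∧ β ≤ (hi : ℝ) ∧
    β ^ 6 - 10 * β ^ 5 - 6 * β ^ 4 + 3 * β ^ 3 - 6 * β ^ 2 - 10 * β + 1 = 0 := by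
  have hc : ContinuousOn (fun x : ℝ => x ^ 6 - 10 * x ^ 5 - 6 * x ^ 4 + 3 * x ^ 3 - 6 * x ^ 2 - 10 * x + 1)
      (Set.Icc (lo : ℝ) (hi : ℝ)) := by fun_prop
  have hle : (lo : ℝ) ≤ (hi : ℝ) := by
    norm_num [lo, hi]
  have h1 : (0 : ℝ) ∈ Set.Icc ((fun x : ℝ => x ^ 6 - 10 * x ^ 5 - 6 * x ^ 4 + 3 * x ^ 3 - 6 * x ^ 2 - 10 * x + 1) lo)
      ((fun x : ℝ => x ^ 6 - 10 * x ^ 5 - 6 * x ^ 4 + 3 * x ^ 3 - 6 * x ^ 2 - 10 * x + 1) hi) := by
    constructor
    · norm_num [lo]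
    · norm_num [hi]
  obtain ⟨β, hβ, h⟩ := intermediate_value_Icc hle hc h1
  exact ⟨β, hβ.1, hβ.2, h⟩

/-! ### The remainders -/

/-- the coordinates of the remainders -/
def T : Fin 34 → Fin 6 → ℤ := ![![1, 0, 0, 0, 0, 0],
  ![-10, 1, 0, 0, 0, 0],
  ![-5, -10, 1, 0, 0, 0],
  ![-8, -5, -10, 1, 0, 0],
  ![-2, -8, -5, -10, 1, 0],
  ![-1, -2, -8, -5, -10, 1],
  ![-9, 9, 4, -11, 1, 0],
  ![-2, -9, 9, 4, -11, 1],
  ![-11, 8, -3, 6, 10, -1],
  ![-1, -21, 2, 0, 0, 0],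
  ![0, -1, -21, 2, 0, 0],
  ![0, 0, -1, -21, 2, 0],
  ![-9, 0, 0, -1, -21, 2],
  ![-7, 11, 12, -6, 11, -1],
  ![-4, -17, 5, 15, -12, 1],
  ![-3, 6, -11, 2, 21, -2],
  ![-2, -23, -6, -5, -10, 1],
  ![-9, 8, -17, -9, 1, 0],
  ![-3, -9, 8, -17, -9, 1],
  ![-10, 7, -3, 5, -11, 1],
  ![-2, 0, 13, -6, 11, -1],
  ![-6, -12, -6, 16, -12, 1],
  ![-7, 4, -6, -9, 22, -2],
  ![-8, -27, -8, 0, -21, 2],
  ![-3, 12, -15, -14, 12, -1],
  ![-9, -13, 6, -12, -20, 2],
  ![-4, 11, -1, 0, 0, 0],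
  ![-8, -4, 11, -1, 0, 0],
  ![-1, -8, -4, 11, -1, 0],
  ![-2, -1, -8, -4, 11, -1],
  ![-7, -12, -7, -5, -10, 1],
  ![-6, 3, -6, -10, 1, 0],
  ![-9, -6, 3, -6, -10, 1],
  ![-10, 1, 0, 0, 0, 0]]

/-- the digits `c_1, …, c_33` -/
def D : Fin 33 → ℤ := ![10, 5, 8, 2, 1, 8, 2, 10, 2, 0, 0, 9, 5, 5, 2, 4, 8, 3, 9, 1, 7, 6, 10, 1, 10, 2, 8,
  1, 2, 8, 5, 9, 9]

/-- multiplication by `β` and subtraction of `c` -/
def stp (v : Fin 6 → ℤ) (c : ℤ) : Fin 6 → ℤ :=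
  ![-(v 5) - c, v 0 + 10 * v 5, v 1 + 6 * v 5, v 2 - 3 * v 5, v 3 + 6 * v 5, v 4 + 10 * v 5]

lemma T_step : ∀ n : Fin 33, T n.succ = stp (T n.castSucc) (D n) := by
  decide +kernel

/-- value at `β` -/
noncomputable def ev (v : Fin 6 → ℤ) (β : ℝ) : ℝ :=
  v 0 + v 1 * β + v 2 * β ^ 2 + v 3 * β ^ 3 + v 4 * β ^ 4 + v 5 * β ^ 5

/-- lower bound of `v * β^i` -/
def lb (v : ℤ) (i : ℕ) : ℚ := if 0 ≤ v then v * lo ^ i else v * hi ^ i

/-- upper bound of `v * β^i` -/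
def ub (v : ℤ) (i : ℕ) : ℚ := if 0 ≤ v then v * hi ^ i else v * lo ^ i

lemma T_bound : ∀ n : Fin 33,
    0 ≤ lb (T n.succ 0) 0 + lb (T n.succ 1) 1 + lb (T n.succ 2) 2 + lb (T n.succ 3) 3 + lb (T n.succ 4) 4 +
      lb (T n.succ 5) 5 ∧
    ub (T n.succ 0) 0 + ub (T n.succ 1) 1 + ub (T n.succ 2) 2 + ub (T n.succ 3) 3 + ub (T n.succ 4) 4 +
      ub (T n.succ 5) 5 < 1 := by
  decide +kernel

section

variable {β : ℝ}

lemma lb_le (h1 : (lo : ℝ) ≤ β) (h2 : β ≤ (hi : ℝ)) (v : ℤ) (i : ℕ) : ((lb v i : ℚ) : ℝ) ≤ v * β ^ i := by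
  have h0 : (0 : ℝ) < lo := by norm_num [lo]
  unfold lb
  split_ifs with hv
  · push_cast
    have : (0 : ℝ) ≤ v := by exact_mod_cast hv
    gcongr
  · push_cast
    have : (v : ℝ) ≤ 0 := by exact_mod_cast (by omega : v ≤ 0)
    have h3 : β ^ i ≤ (hi : ℝ) ^ i := by
      have : (0 : ℝ) ≤ β := by linarith
      gcongr
    nlinarith

lemma le_ub (h1 : (lo : ℝ) ≤ β) (h2 : β ≤ (hi : ℝ)) (v : ℤ) (i : ℕ) : v * β ^ i ≤ ((ub v i : ℚ) : ℝ) := by
  have h0 : (0 : ℝ) < lo := by norm_num [lo]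
  unfold ub
  split_ifs with hv
  · push_cast
    have : (0 : ℝ) ≤ v := by exact_mod_cast hv
    have : (0 : ℝ) ≤ β := by linarith
    gcongr
  · push_cast
    have : (v : ℝ) ≤ 0 := by exact_mod_cast (by omega : v ≤ 0)
    have h3 : (lo : ℝ) ^ i ≤ β ^ i := by gcongr
    nlinarith

lemma ev_bound (h1 : (lo : ℝ) ≤ β) (h2 : β ≤ (hi : ℝ)) (n : Fin 33) :
    0 ≤ ev (T n.succ) β ∧ ev (T n.succ) β < 1 := by
  obtain ⟨k1, k2⟩ := T_bound n
  have k1' : (0 : ℝ) ≤ ((lb (T n.succ 0) 0 + lb (T n.succ 1) 1 + lb (T n.succ 2) 2 + lb (T n.succ 3) 3 +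
      lb (T n.succ 4) 4 + lb (T n.succ 5) 5 : ℚ) : ℝ) := by exact_mod_cast k1
  have k2' : ((ub (T n.succ 0) 0 + ub (T n.succ 1) 1 + ub (T n.succ 2) 2 + ub (T n.succ 3) 3 +
      ub (T n.succ 4) 4 + ub (T n.succ 5) 5 : ℚ) : ℝ) < 1 := by exact_mod_cast k2
  push_cast at k1' k2'
  have a0 := lb_le h1 h2 (T n.succ 0) 0
  have a1 := lb_le h1 h2 (T n.succ 1) 1
  have a2 := lb_le h1 h2 (T n.succ 2) 2
  have a3 := lb_le h1 h2 (T n.succ 3) 3
  have a4 := lb_le h1 h2 (T n.succ 4) 4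
  have a5 := lb_le h1 h2 (T n.succ 5) 5
  have b0 := le_ub h1 h2 (T n.succ 0) 0
  have b1 := le_ub h1 h2 (T n.succ 1) 1
  have b2 := le_ub h1 h2 (T n.succ 2) 2
  have b3 := le_ub h1 h2 (T n.succ 3) 3
  have b4 := le_ub h1 h2 (T n.succ 4) 4
  have b5 := le_ub h1 h2 (T n.succ 5) 5
  rw [pow_zero, mul_one] at a0 b0
  rw [pow_one] at a1 b1
  unfold ev
  constructor
  · linarith
  · linarith

lemma ev_step (hP : β ^ 6 - 10 * β ^ 5 - 6 * β ^ 4 + 3 * β ^ 3 - 6 * β ^ 2 - 10 * β + 1 = 0) (v : Fin 6 → ℤ)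
    (c : ℤ) : ev (stp v c) β = β * ev v β - c := by
  unfold ev stp
  simp only [Matrix.cons_val_zero, Matrix.cons_val_one, Matrix.cons_val]
  push_cast
  linear_combination (-(v 5 : ℝ)) * hP

lemma rem_eq (h1 : (lo : ℝ) ≤ β) (h2 : β ≤ (hi : ℝ))
    (hP : β ^ 6 - 10 * β ^ 5 - 6 * β ^ 4 + 3 * β ^ 3 - 6 * β ^ 2 - 10 * β + 1 = 0) :
    ∀ n : ℕ, ∀ h : n < 34, rem β n = ev (T ⟨n, h⟩) β ∧
      ∀ h' : n < 33, ⌊β * rem β n⌋ = D ⟨n, h'⟩ := by
  have key : ∀ n : ℕ, ∀ h : n < 33, rem β n = ev (T ⟨n, by omega⟩) β → ⌊β * rem β n⌋ = D ⟨n, h⟩ := by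
    intro n h he
    have h3 := ev_step hP (T (Fin.castSucc ⟨n, h⟩)) (D ⟨n, h⟩)
    rw [← T_step ⟨n, h⟩] at h3
    obtain ⟨h4, h5⟩ := ev_bound h1 h2 ⟨n, h⟩
    have h6 : T (Fin.castSucc ⟨n, h⟩) = T ⟨n, by omega⟩ := rfl
    rw [h6, ← he] at h3
    rw [Int.floor_eq_iff]
    constructor <;> linarith
  intro n
  induction n with
  | zero =>
    intro h
    have : rem β 0 = ev (T ⟨0, h⟩) β := by
      have : T ⟨0, h⟩ = ![1, 0, 0, 0, 0, 0] := rfl
      rw [this]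
      unfold ev rem
      simp
    exact ⟨this, fun h' => key 0 h' this⟩
  | succ n ih =>
    intro h
    have h3 := (ih (by omega)).1
    have h4 := key n (by omega) h3
    have h5 : rem β (n + 1) = ev (T ⟨n + 1, h⟩) β := by
      have h6 := ev_step hP (T (Fin.castSucc ⟨n, by omega⟩)) (D ⟨n, by omega⟩)
      rw [← T_step ⟨n, by omega⟩] at h6
      have h7 : T (Fin.castSucc ⟨n, by omega⟩) = T ⟨n, by omega⟩ := rfl
      rw [h7, ← h3] at h6
      change β * rem β n - ⌊β * rem β n⌋ = _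
      rw [h4]
      exact h6.symm
    exact ⟨h5, fun h' => key (n + 1) h' h5⟩

lemma rem_period (h1 : (lo : ℝ) ≤ β) (h2 : β ≤ (hi : ℝ))
    (hP : β ^ 6 - 10 * β ^ 5 - 6 * β ^ 4 + 3 * β ^ 3 - 6 * β ^ 2 - 10 * β + 1 = 0) (n : ℕ) :
    rem β (n + 1 + 32) = rem β (n + 1) := by
  induction n with
  | zero =>
    rw [(rem_eq h1 h2 hP (0 + 1 + 32) (by norm_num)).1, (rem_eq h1 h2 hP (0 + 1) (by norm_num)).1]
    rfl
  | succ n ih =>
    have : n + 1 + 1 + 32 = (n + 1 + 32) + 1 := by ring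
    rw [this]
    change β * rem β (n + 1 + 32) - ⌊β * rem β (n + 1 + 32)⌋ = β * rem β (n + 1) - ⌊β * rem β (n + 1)⌋
    rw [ih]

/-- the periodic part of the digits -/
def Dp (r : ℕ) : ℤ := D ⟨r % 32 + 1, by omega⟩

lemma digit_two (h1 : (lo : ℝ) ≤ β) (h2 : β ≤ (hi : ℝ))
    (hP : β ^ 6 - 10 * β ^ 5 - 6 * β ^ 4 + 3 * β ^ 3 - 6 * β ^ 2 - 10 * β + 1 = 0) (r : ℕ) :
    digit β (r + 2) = Dp r := by
  have h3 : ∀ k r : ℕ, rem β (r + 1 + 32 * k) = rem β (r + 1) := by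
    intro k
    induction k with
    | zero => intro r; rfl
    | succ k ih =>
      intro r
      have : r + 1 + 32 * (k + 1) = (r + 32 * k) + 1 + 32 := by ring
      rw [this, rem_period h1 h2 hP]
      have : r + 32 * k + 1 = r + 1 + 32 * k := by ring
      rw [this, ih]
  unfold digit Dp
  have h4 : r + 2 - 1 = r % 32 + 1 + 32 * (r / 32) := by omega
  rw [h4, h3]
  exact (rem_eq h1 h2 hP (r % 32 + 1) (by omega)).2 (by omega)

lemma digit_one (h1 : (lo : ℝ) ≤ β) (h2 : β ≤ (hi : ℝ))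
    (hP : β ^ 6 - 10 * β ^ 5 - 6 * β ^ 4 + 3 * β ^ 3 - 6 * β ^ 2 - 10 * β + 1 = 0) : digit β 1 = 10 := by
  have h := (rem_eq h1 h2 hP 0 (by norm_num)).2 (by norm_num)
  have h' : D ⟨0, by norm_num⟩ = 10 := rfl
  rw [h'] at h
  exact h

lemma Dp_add (r k : ℕ) : Dp (r + 32 * k) = Dp r := by
  unfold Dp
  congr 2
  omega

lemma Dp_ne : ∀ p : Fin 32, p ≠ 0 → ∃ r : Fin 32, Dp r ≠ Dp (r + p) := by
  unfold Dp
  decide +kernel

lemma period (h1 : (lo : ℝ) ≤ β) (h2 : β ≤ (hi : ℝ))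
    (hP : β ^ 6 - 10 * β ^ 5 - 6 * β ^ 4 + 3 * β ^ 3 - 6 * β ^ 2 - 10 * β + 1 = 0) :
    IsPreperiodPeriod (digit β) 1 32 := by
  have hd := digit_two h1 h2 hP
  refine ⟨⟨by norm_num, ?_⟩, ?_⟩
  · intro n hn
    obtain ⟨k, rfl⟩ : ∃ k, n = k + 1 := ⟨n - 1, by omega⟩
    have e1 : k + 1 + 1 = k + 2 := rfl
    have e2 : k + 1 + 1 + 32 = (k + 32 * 1) + 2 := by ring
    rw [e2, e1, hd, hd]
    exact (Dp_add k 1).symm
  · rintro m' p' ⟨hp, h⟩
    constructor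
    · by_contra hm
      have hm0 : m' = 0 := by omega
      subst hm0
      have h3 : ∀ j, digit β (1 + j * p') = digit β 1 := by
        intro j
        induction j with
        | zero => simp
        | succ j ih =>
          rw [← ih]
          have := h (1 + j * p') (by omega)
          rw [add_zero] at this
          rw [this]
          congr 1
          ring
      have h4 := h3 32
      obtain ⟨q, rfl⟩ : ∃ q, p' = q + 1 := ⟨p' - 1, by omega⟩
      have e : 1 + 32 * (q + 1) = (31 + 32 * q) + 2 := by ring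
      rw [e, hd, Dp_add, digit_one h1 h2 hP] at h4
      revert h4
      decide
    · by_contra hlt
      obtain ⟨r, hr⟩ := Dp_ne ⟨p', by omega⟩ (by
        intro h0
        have := congrArg Fin.val h0
        simp at this
        omega)
      apply hr
      have h3 := h ((r : ℕ) + 2 + 31 * m') (by omega)
      have e1 : (r : ℕ) + 2 + 31 * m' + m' = ((r : ℕ) + 32 * m') + 2 := by ring
      have e2 : (r : ℕ) + 2 + 31 * m' + m' + p' = ((r : ℕ) + p' + 32 * m') + 2 := by ring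
      rw [e2, e1, hd, hd, Dp_add, Dp_add] at h3
      exact h3

/-! ### The companion polynomial -/

lemma Pk_succ (c : ℕ → ℤ) (k : ℕ) : Pk c (k + 1) = X * Pk c k - C (c (k + 1)) := by
  unfold Pk
  rw [Finset.sum_range_succ, mul_sub, Finset.mul_sum]
  have : ∑ i ∈ Finset.range k, C (c (i + 1)) * (X : ℤ[X]) ^ (k + 1 - 1 - i) =
      ∑ i ∈ Finset.range k, X * (C (c (i + 1)) * X ^ (k - 1 - i)) := by
    apply Finset.sum_congr rfl
    intro i hi
    rw [Finset.mem_range] at hi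
    have : k + 1 - 1 - i = (k - 1 - i) + 1 := by omega
    rw [this, pow_succ]
    ring
  rw [this]
  simp
  ring

lemma aeval_Pk (k : ℕ) : aeval β (Pk (digit β) k) = rem β k := by
  induction k with
  | zero => simp [Pk, rem]
  | succ k ih =>
    rw [Pk_succ, map_sub, map_mul, ih, aeval_X]
    simp only [aeval_C]
    rfl

lemma coeff_Pk (c : ℕ → ℤ) (k j : ℕ) (hj : j < k) : (Pk c k).coeff j = - c (k - j) := by
  unfold Pk
  rw [coeff_sub, coeff_X_pow, if_neg (by omega), finsetSum_coeff, Finset.sum_eq_single (k - 1 - j)]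
  · rw [coeff_C_mul, coeff_X_pow, if_pos (by omega)]
    have : k - 1 - j + 1 = k - j := by omega
    rw [this]
    ring
  · intro i hi hne
    rw [Finset.mem_range] at hi
    rw [coeff_C_mul, coeff_X_pow, if_neg (by omega), mul_zero]
  · intro h
    exact absurd (Finset.mem_range.2 (by omega)) h

lemma coeff_Pk_self (c : ℕ → ℤ) (k : ℕ) : (Pk c k).coeff k = 1 := by
  unfold Pk
  rw [coeff_sub, coeff_X_pow, if_pos rfl, finsetSum_coeff, Finset.sum_eq_zero]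
  · ring
  · intro i hi
    rw [Finset.mem_range] at hi
    rw [coeff_C_mul, coeff_X_pow, if_neg (by omega), mul_zero]

lemma coeff_Pk_gt (c : ℕ → ℤ) (k j : ℕ) (hj : k < j) : (Pk c k).coeff j = 0 := by
  unfold Pk
  rw [coeff_sub, coeff_X_pow, if_neg (by omega), finsetSum_coeff, Finset.sum_eq_zero]
  · ring
  · intro i hi
    rw [Finset.mem_range] at hi
    rw [coeff_C_mul, coeff_X_pow, if_neg (by omega), mul_zero]

lemma natDegree_R (c : ℕ → ℤ) : (Pk c (1 + 32) - Pk c 1).natDegree = 33 := by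
  refine natDegree_eq_of_le_of_coeff_ne_zero ?_ ?_
  · rw [natDegree_le_iff_coeff_eq_zero]
    intro j hj
    rw [coeff_sub, coeff_Pk_gt c _ _ hj, coeff_Pk_gt c 1 j (by omega), sub_zero]
  · have h := coeff_Pk_self c 33
    rw [coeff_sub, show (1 + 32) = 33 from rfl, h, coeff_Pk_gt c 1 33 (by norm_num)]
    norm_num

end

/-! ### The Salem property -/

lemma norm_one_of {α : ℂ} {g : ℝ} (h : α ^ 2 - g * α + 1 = 0) (h1 : -2 < g) (h2 : g < 2) : ‖α‖ = 1 := by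
  have hre := congrArg Complex.re h
  have him := congrArg Complex.im h
  simp [pow_two] at hre him
  have h3 : α.im * (2 * α.re - g) = 0 := by linarith
  rw [← sq_eq_sq₀ (norm_nonneg _) zero_le_one, ← Complex.normSq_eq_norm_sq, Complex.normSq_apply]
  rcases mul_eq_zero.1 h3 with h4 | h4
  · exfalso
    rw [h4] at hre
    nlinarith [sq_nonneg (α.re - g / 2)]
  · have : g = 2 * α.re := by linarith
    rw [this] at hre
    nlinarith

lemma salem {β : ℝ} (h1 : (lo : ℝ) ≤ β)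
    (hP : β ^ 6 - 10 * β ^ 5 - 6 * β ^ 4 + 3 * β ^ 3 - 6 * β ^ 2 - 10 * β + 1 = 0) : IsSalem β := by
  have hr : aeval β P = 0 := by rw [aeval_P, hP]
  have hm := minpoly_eq hr
  have hb : (10 : ℝ) < β := lt_of_lt_of_le (by norm_num [lo]) h1
  have hb0 : β ≠ 0 := by linarith
  -- the roots of the trace polynomial
  have hc : Continuous (fun y : ℝ => y ^ 3 - 10 * y ^ 2 - 9 * y + 23) := by fun_prop
  obtain ⟨g1, ⟨a1, a2⟩, a3⟩ : ∃ g ∈ Set.Ioo (-2 : ℝ) 0, g ^ 3 - 10 * g ^ 2 - 9 * g + 23 = 0 := by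
    have := intermediate_value_Ioo (by norm_num : (-2 : ℝ) ≤ 0) hc.continuousOn
    exact this ⟨by norm_num, by norm_num⟩
  obtain ⟨g2, ⟨b1, b2⟩, b3⟩ : ∃ g ∈ Set.Ioo (0 : ℝ) 2, g ^ 3 - 10 * g ^ 2 - 9 * g + 23 = 0 := by
    have := intermediate_value_Ioo' (by norm_num : (0 : ℝ) ≤ 2) hc.continuousOn
    exact this ⟨by norm_num, by norm_num⟩
  set g3 : ℝ := β + β⁻¹ with hg3
  have c3 : g3 ^ 3 - 10 * g3 ^ 2 - 9 * g3 + 23 = 0 := by
    have : β ^ 3 * (g3 ^ 3 - 10 * g3 ^ 2 - 9 * g3 + 23) = 0 := by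
      rw [hg3]
      field_simp
      linear_combination hP
    rcases mul_eq_zero.1 this with h | h
    · exact absurd (pow_eq_zero_iff (by norm_num) |>.1 h) hb0
    · exact h
  have hg3' : 10 < g3 := by
    have : 0 < β⁻¹ := by positivity
    linarith
  have e12 : g2 ^ 2 + g1 * g2 + g1 ^ 2 - 10 * (g1 + g2) - 9 = 0 := by
    have : (g2 - g1) * (g2 ^ 2 + g1 * g2 + g1 ^ 2 - 10 * (g1 + g2) - 9) = 0 := by
      linear_combination b3 - a3
    rcases mul_eq_zero.1 this with h | h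
    · linarith
    · exact h
  have e13 : g3 ^ 2 + g1 * g3 + g1 ^ 2 - 10 * (g1 + g3) - 9 = 0 := by
    have : (g3 - g1) * (g3 ^ 2 + g1 * g3 + g1 ^ 2 - 10 * (g1 + g3) - 9) = 0 := by
      linear_combination c3 - a3
    rcases mul_eq_zero.1 this with h | h
    · linarith
    · exact h
  have e : g1 + g2 + g3 = 10 := by
    have : (g3 - g2) * (g1 + g2 + g3 - 10) = 0 := by
      linear_combination e13 - e12
    rcases mul_eq_zero.1 this with h | h
    · linarith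
    · linarith
  have eC : (g1 : ℂ) + g2 + g3 = 10 := by exact_mod_cast congrArg (fun x : ℝ => (x : ℂ)) e
  have a3C : (g1 : ℂ) ^ 3 - 10 * g1 ^ 2 - 9 * g1 + 23 = 0 := by
    exact_mod_cast congrArg (fun x : ℝ => (x : ℂ)) a3
  have e12C : (g2 : ℂ) ^ 2 + g1 * g2 + g1 ^ 2 - 10 * (g1 + g2) - 9 = 0 := by
    exact_mod_cast congrArg (fun x : ℝ => (x : ℂ)) e12
  have fac : ∀ y : ℂ, y ^ 3 - 10 * y ^ 2 - 9 * y + 23 = (y - g1) * (y - g2) * (y - g3) := by
    intro y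
    have e3 : (g3 : ℂ) = 10 - g1 - g2 := by linear_combination eC
    rw [e3]
    linear_combination (y - g1) * e12C + a3C
  refine ⟨by linarith, ⟨P, P_monic, hr⟩, ?_, ?_⟩
  · intro α hα hne
    rw [hm, aeval_P] at hα
    have hα0 : α ≠ 0 := by
      rintro rfl
      norm_num at hα
    have h3 : α ^ 3 * ((α + α⁻¹) ^ 3 - 10 * (α + α⁻¹) ^ 2 - 9 * (α + α⁻¹) + 23) = 0 := by
      field_simp
      linear_combination hα
    rw [fac] at h3
    have h4 : (α ^ 2 - g1 * α + 1) * ((α ^ 2 - g2 * α + 1) * (α ^ 2 - g3 * α + 1)) = 0 := by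
      rw [← h3]
      field_simp
      ring
    rcases mul_eq_zero.1 h4 with h5 | h5
    · exact (norm_one_of h5 (by linarith) (by linarith)).le
    rcases mul_eq_zero.1 h5 with h6 | h6
    · exact (norm_one_of h6 (by linarith) (by linarith)).le
    · have h7 : (α - β) * (α * β - 1) = 0 := by
        have hbc : (β : ℂ) ≠ 0 := by exact_mod_cast hb0
        rw [hg3] at h6
        push_cast at h6
        have h8 : (α ^ 2 - (β + (β : ℂ)⁻¹) * α + 1) * β = (α - β) * (α * β - 1) := by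
          field_simp
          ring
        rw [← h8, h6, zero_mul]
      rcases mul_eq_zero.1 h7 with h8 | h8
      · exact absurd (sub_eq_zero.1 h8) hne
      · have h9 : ‖α‖ * β = 1 := by
          have : α * β = 1 := by linear_combination h8
          have h10 := congrArg norm this
          rw [norm_mul, norm_one, Complex.norm_real, Real.norm_of_nonneg (by linarith)] at h10
          exact h10
        nlinarith [norm_nonneg α]
  · set s : ℝ := Real.sqrt (1 - g1 ^ 2 / 4) with hs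
    have hs2 : s ^ 2 = 1 - g1 ^ 2 / 4 := by
      rw [hs, Real.sq_sqrt]
      nlinarith
    have hs2C : (s : ℂ) ^ 2 = 1 - (g1 : ℂ) ^ 2 / 4 := by
      exact_mod_cast congrArg (fun x : ℝ => (x : ℂ)) hs2
    have hq : ((g1 : ℂ) / 2 + s * Complex.I) ^ 2 - g1 * ((g1 : ℂ) / 2 + s * Complex.I) + 1 = 0 := by
      have hI := Complex.I_sq
      linear_combination (s : ℂ) ^ 2 * hI - hs2C
    refine ⟨(g1 : ℂ) / 2 + s * Complex.I, ?_, norm_one_of hq (by linarith) (by linarith)⟩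
    set α : ℂ := (g1 : ℂ) / 2 + s * Complex.I with hα
    rw [hm, aeval_P]
    have hα0 : α ≠ 0 := by
      intro h
      rw [h] at hq
      norm_num at hq
    have h3 : α ^ 6 - 10 * α ^ 5 - 6 * α ^ 4 + 3 * α ^ 3 - 6 * α ^ 2 - 10 * α + 1 =
        α ^ 3 * ((α + α⁻¹) ^ 3 - 10 * (α + α⁻¹) ^ 2 - 9 * (α + α⁻¹) + 23) := by
      field_simp
      ring
    have h4 : α + α⁻¹ = g1 := by
      field_simp
      linear_combination hq
    rw [h3, h4, a3C, mul_zero]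

/-- **Theorem.** There is a Salem number `β` of degree `6` whose greedy expansion of `1` is eventually periodic
with preperiod length `1` (and period length `32`) and whose co-factor is not reciprocal. -/
theorem result : ∃ β : ℝ, IsSalem β ∧ (minpoly ℤ β).natDegree = 6 ∧
    IsPreperiodPeriod (digit β) 1 32 ∧
    ∃ Q : ℤ[X], Pk (digit β) (1 + 32) - Pk (digit β) 1 = minpoly ℤ β * Q ∧ Q.reverse ≠ Q := by
  obtain ⟨β, h1, h2, hP⟩ := exists_root
  have hr : aeval β P = 0 := by rw [aeval_P, hP]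
  have hm := minpoly_eq hr
  refine ⟨β, salem h1 hP, by rw [hm, P_natDegree], period h1 h2 hP, ?_⟩
  have hR : aeval β (Pk (digit β) (1 + 32) - Pk (digit β) 1) = 0 := by
    rw [map_sub, aeval_Pk, aeval_Pk, sub_eq_zero]
    exact rem_period h1 h2 hP 0
  obtain ⟨Q, hQ⟩ := minpoly.isIntegrallyClosed_dvd (⟨P, P_monic, hr⟩ : IsIntegral ℤ β) hR
  refine ⟨Q, hQ, fun hrev => ?_⟩
  have h3 : (Pk (digit β) (1 + 32) - Pk (digit β) 1).reverse = Pk (digit β) (1 + 32) - Pk (digit β) 1 := by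
    rw [hQ, reverse_mul_of_domain, hrev, hm, P_reverse]
  have h4 := congrArg (fun f : ℤ[X] => f.coeff 9) h3
  rw [coeff_reverse, natDegree_R, revAt_le (by norm_num), coeff_sub, coeff_sub] at h4
  have f1 := coeff_Pk (digit β) (1 + 32) (33 - 9) (by norm_num)
  have f2 := coeff_Pk (digit β) (1 + 32) 9 (by norm_num)
  have f3 := coeff_Pk_gt (digit β) 1 (33 - 9) (by norm_num)
  have f4 := coeff_Pk_gt (digit β) 1 9 (by norm_num)
  have e1 : digit β (1 + 32 - (33 - 9)) = 2 := digit_two h1 h2 hP 7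
  have e2 : digit β (1 + 32 - 9) = 1 := digit_two h1 h2 hP 22
  rw [f1, f2, f3, f4, e1, e2] at h4
  norm_num at h4

end Pool.Agent.Results.MP_9c9d6b_nt.NonReciprocal
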